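import Pool.Agent.H2GU.Unit

/-!
# MP_4717c3_al: units of group algebras of torsion groups

The answer to Q1 is negative for every odd prime `p` and every field of characteristic `p`: the
group is the Grigorchuk group. Let `A = a` and `S = 1 + b + c + d`, so `A ^ 2 = 1`, `S ^ 2 = 4 S`;
the elements `α = (1 + A) S (1 - A)`, `β = (1 - A) S (1 + A)` have square zero. The unit is
`u = (1 + α) (1 + β)`, and `u + u⁻¹ - 2 = 16 t ^ 2 - t ^ 4` for `t = 2 A + S - 2 = 2 a + b + c + d - 1`.
The Schreier graphs of the levels are paths, on which `t` is a tridiagonal matrix with the entries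
`2` beside the diagonal; so `t` is transcendental over the field, and `u` is not algebraic.
-/

set_option autoImplicit false

namespace Pool.Agent.Results.MP_4717c3_al.GrigorchukUnit

open Polynomial

/-- The unit `u` of the `F`-algebra is such that `u ^ i - 1` is nilpotent for some `i ≥ 1`. -/
def PiUU {A : Type} [Ring A] (u : Aˣ) : Prop := ∃ i : ℕ, 1 ≤ i ∧ IsNilpotent ((u : A) ^ i - 1)

/-- There is a torsion group `G`, generated by four elements, such that for every field `F` of
characteristic different from two, the group algebra of `G` over `F` has a unit `u` which is not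
algebraic over `F`, so that `u ^ i - 1` is not nilpotent for any `i ≥ 1`. In particular this holds
for the algebraic extensions `F` of the field with `p` elements, `p` an odd prime. -/
theorem result : ∃ (G : Type) (_ : Group G), (∀ g : G, IsOfFinOrder g) ∧
    (∃ S : Finset G, S.card ≤ 4 ∧ Subgroup.closure (S : Set G) = ⊤) ∧
    ∀ (F : Type) [Field F], (2 : F) ≠ 0 →
      ∃ u : (MonoidAlgebra F G)ˣ, ¬ IsAlgebraic F (u : MonoidAlgebra F G) ∧ ¬ PiUU u := by
  classical
  refine ⟨Pool.Agent.Helper940.GrigIrr.G, inferInstance, ?_, ?_, ?_⟩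
  · intro g
    obtain ⟨k, hk⟩ := Pool.Agent.Helper940.GrigIrr.isPGroup g
    exact isOfFinOrder_iff_pow_eq_one.2 ⟨2 ^ k, by positivity, hk⟩
  · refine ⟨{Pool.Agent.Helper940.GrigIrr.ga, Pool.Agent.Helper940.GrigIrr.gb,
      Pool.Agent.Helper940.GrigIrr.gc, Pool.Agent.Helper940.GrigIrr.gd}, Finset.card_le_four, ?_⟩
    have h1 : ((({Pool.Agent.Helper940.GrigIrr.ga, Pool.Agent.Helper940.GrigIrr.gb,
        Pool.Agent.Helper940.GrigIrr.gc, Pool.Agent.Helper940.GrigIrr.gd} :
        Finset Pool.Agent.Helper940.GrigIrr.G) : Set Pool.Agent.Helper940.GrigIrr.G)) =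
        (Subtype.val : Pool.Agent.Helper940.GrigIrr.G → _) ⁻¹'
          {Pool.Agent.Helper940.GrigIrr.a, Pool.Agent.Helper940.GrigIrr.b,
            Pool.Agent.Helper940.GrigIrr.c, Pool.Agent.Helper940.GrigIrr.d} := by
      ext x
      simp [Subtype.ext_iff, Pool.Agent.Helper940.GrigIrr.ga, Pool.Agent.Helper940.GrigIrr.gb,
        Pool.Agent.Helper940.GrigIrr.gc, Pool.Agent.Helper940.GrigIrr.gd]
    rw [h1]
    exact Subgroup.closure_closure_coe_preimage
  · intro F _ h2
    obtain ⟨u, hu⟩ := Pool.Agent.H2GU.exists_unit (k := F) h2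
    refine ⟨u, hu, ?_⟩
    rintro ⟨i, hi, n, hn⟩
    apply hu
    refine ⟨(X ^ i - 1) ^ n, ?_, ?_⟩
    · exact pow_ne_zero _ (X_pow_sub_C_ne_zero (by omega) 1)
    · rw [map_pow, map_sub, map_pow, aeval_X, map_one]
      exact hn

end Pool.Agent.Results.MP_4717c3_al.GrigorchukUnit
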